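import Mathlib

/-!
# The sequences tending to zero are not complemented in the bounded sequences
-/

open Topology Filter

namespace Pool.Agent.Helper20.FA

/-- Bounded sequences. -/
abbrev Bd : Type := BoundedContinuousFunction ℕ ℂ

/-- A bounded sequence. -/
noncomputable def mkB (f : ℕ → ℂ) (C : ℝ) (h : ∀ n, ‖f n‖ ≤ C) : Bd :=
  BoundedContinuousFunction.ofNormedAddCommGroup f continuous_of_discreteTopology C h

theorem mkB_apply (f : ℕ → ℂ) (C : ℝ) (h : ∀ n, ‖f n‖ ≤ C) (n : ℕ) : mkB f C h n = f n := rfl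

theorem norm_mkB_le (f : ℕ → ℂ) (C : ℝ) (hC : 0 ≤ C) (h : ∀ n, ‖f n‖ ≤ C) :
    ‖mkB f C h‖ ≤ C :=
  (BoundedContinuousFunction.norm_le hC).2 h

open Classical in
/-- The indicator function. -/
noncomputable def indB (S : Set ℕ) : Bd :=
  mkB (fun n => if n ∈ S then 1 else 0) 1 (fun n => by split_ifs <;> simp)

open Classical in
theorem indB_apply (S : Set ℕ) (n : ℕ) : indB S n = if n ∈ S then 1 else 0 := rfl

/-- The unit vectors. -/
noncomputable def unB (k : ℕ) : Bd :=
  mkB (fun n => if n = k then 1 else 0) 1 (fun n => by split_ifs <;> simp)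

theorem unB_apply (k n : ℕ) : unB k n = if n = k then 1 else 0 := rfl

/-- The codes of the initial segments. -/
def adS (f : ℕ → Bool) : Set ℕ := {c | ∃ n, c = Encodable.encode (List.ofFn fun i : Fin n => f i)}

theorem adS_infinite (f : ℕ → Bool) : (adS f).Infinite := by
  have h1 : Function.Injective fun n : ℕ =>
      Encodable.encode (List.ofFn fun i : Fin n => f i) := by
    intro m n hmn
    have h2 := congrArg List.length (Encodable.encode_injective hmn)
    simpa using h2
  refine (Set.infinite_range_of_injective h1).mono ?_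
  rintro _ ⟨n, rfl⟩
  exact ⟨n, rfl⟩

theorem adS_inter {f g : ℕ → Bool} (hfg : f ≠ g) : (adS f ∩ adS g).Finite := by
  obtain ⟨j, hj⟩ := Function.ne_iff.1 hfg
  have h1 : adS f ∩ adS g ⊆ (fun n : ℕ =>
      Encodable.encode (List.ofFn fun i : Fin n => f i)) '' Set.Iic j := by
    rintro c ⟨⟨m, hm⟩, ⟨n, hn⟩⟩
    have h2 := Encodable.encode_injective (hm.symm.trans hn)
    have h3 : m = n := by
      have := congrArg List.length h2
      simpa using this
    subst h3
    refine ⟨m, ?_, hm.symm⟩
    rw [Set.mem_Iic]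
    by_contra h4
    push Not at h4
    have h5 := List.ofFn_injective h2
    exact hj (congrFun h5 ⟨j, h4⟩)
  exact (Set.toFinite _).subset h1

/-- There is no bounded linear map from the bounded sequences to the sequences tending to zero
that fixes the unit vectors. -/
theorem no_projection (T : Bd →ₗ[ℂ] (ℕ → ℂ)) {C : ℝ} (hC0 : 0 ≤ C)
    (hC : ∀ b n, ‖T b n‖ ≤ C * ‖b‖) (h0 : ∀ b, Tendsto (T b) atTop (𝓝 0))
    (h1 : ∀ k n, T (unB k) n = if n = k then 1 else 0) : False := by
  classical
  let R : ℕ → Bd →ₗ[ℂ] ℂ := fun n =>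
    { toFun := fun b => b n - T b n
      map_add' := fun b c => by
        rw [map_add]
        show b n + c n - (T b n + T c n) = _
        ring
      map_smul' := fun r b => by
        rw [map_smul]
        show r * b n - r * T b n = r * (b n - T b n)
        ring }
  have hR : ∀ n b, R n b = b n - T b n := fun n b => rfl
  have hRb : ∀ n b, ‖R n b‖ ≤ (1 + C) * ‖b‖ := by
    intro n b
    rw [hR]
    have h2 := norm_sub_le (b n) (T b n)
    have h3 := b.norm_coe_le_norm n
    have h4 := hC b n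
    linarith
  have hRe : ∀ n k, R n (unB k) = 0 := by
    intro n k
    rw [hR, h1, unB_apply, sub_self]
  -- each indicator has a nonzero image
  have hne : ∀ f : ℕ → Bool, ∃ n, R n (indB (adS f)) ≠ 0 := by
    intro f
    by_contra h2
    push Not at h2
    have h3 : ∀ n, T (indB (adS f)) n = indB (adS f) n := by
      intro n
      have h4 := h2 n
      rw [hR, sub_eq_zero] at h4
      exact h4.symm
    have h5 := h0 (indB (adS f))
    have h6 : ∀ᶠ n in atTop, ‖T (indB (adS f)) n‖ < 1 := by
      have h7 := h5.norm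
      rw [norm_zero] at h7
      exact h7.eventually (gt_mem_nhds one_pos)
    obtain ⟨N, hN⟩ := eventually_atTop.1 h6
    obtain ⟨c, hc, hcN⟩ := (adS_infinite f).exists_gt N
    have h8 := hN c hcN.le
    rw [h3, indB_apply, if_pos hc, norm_one] at h8
    exact lt_irrefl _ h8
  choose nf hnf using hne
  have hk : ∀ f, ∃ k : ℕ, 1 / ((k : ℝ) + 1) < ‖R (nf f) (indB (adS f))‖ := fun f =>
    exists_nat_one_div_lt (norm_pos_iff.2 (hnf f))
  choose kf hkf using hk
  -- a fibre is infinite
  obtain ⟨⟨n, k⟩, hfib⟩ : ∃ q : ℕ × ℕ, {f : ℕ → Bool | (nf f, kf f) = q}.Infinite := by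
    by_contra h2
    push Not at h2
    have h3 : (Set.univ : Set (ℕ → Bool)).Countable := by
      have h4 : (Set.univ : Set (ℕ → Bool)) = ⋃ q : ℕ × ℕ, {f | (nf f, kf f) = q} := by
        ext f
        simp
      rw [h4]
      exact Set.countable_iUnion fun q => (h2 q).countable
    have h5 : Countable (ℕ → Bool) := Set.countable_univ_iff.1 h3
    obtain ⟨φ, hφ⟩ := exists_injective_nat (ℕ → Bool)
    refine Function.cantor_injective (fun S : Set ℕ => φ fun n => decide (n ∈ S)) ?_
    intro S S' hSS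
    ext n
    have h6 := congrFun (hφ hSS) n
    simpa using h6
  obtain ⟨m, hm⟩ := exists_nat_gt (((k : ℝ) + 1) * (1 + C))
  obtain ⟨J, hJ, hJm⟩ := hfib.exists_subset_card_eq m
  have hJ1 : ∀ f ∈ J, 1 / ((k : ℝ) + 1) < ‖R n (indB (adS f))‖ := by
    intro f hf
    have h2 : (nf f, kf f) = (n, k) := hJ hf
    have h3 := hkf f
    rw [(Prod.mk.injEq _ _ _ _ ▸ h2 : nf f = n ∧ kf f = k).1,
      (Prod.mk.injEq _ _ _ _ ▸ h2 : nf f = n ∧ kf f = k).2] at h3
    exact h3
  -- beyond `N` the sets are disjoint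
  obtain ⟨N, hN⟩ : ∃ N : ℕ, ∀ f ∈ J, ∀ g ∈ J, f ≠ g → ∀ c ∈ adS f ∩ adS g, c < N := by
    have h2 : (⋃ f ∈ J, ⋃ g ∈ J, ⋃ _ : f ≠ g, adS f ∩ adS g).Finite := by
      refine Set.Finite.biUnion J.finite_toSet fun f _ => ?_
      refine Set.Finite.biUnion J.finite_toSet fun g _ => ?_
      exact Set.finite_iUnion fun h => adS_inter h
    obtain ⟨N, hN⟩ := h2.bddAbove
    refine ⟨N + 1, fun f hf g hg hfg c hc => Nat.lt_succ_of_le (hN ?_)⟩
    simp only [Set.mem_iUnion]
    exact ⟨f, hf, g, hg, hfg, hc⟩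
  let cc : (ℕ → Bool) → ℂ := fun f =>
    (starRingEnd ℂ) (R n (indB (adS f))) / ‖R n (indB (adS f))‖
  have hcc : ∀ f, ‖cc f‖ ≤ 1 := by
    intro f
    show ‖(starRingEnd ℂ) (R n (indB (adS f))) / ‖R n (indB (adS f))‖‖ ≤ 1
    rw [norm_div, RCLike.norm_conj, Complex.norm_real, norm_norm]
    exact div_self_le_one _
  let x : Bd := ∑ f ∈ J, cc f • indB (adS f)
  have hxn : ∀ l, x l = ∑ f ∈ J, cc f * indB (adS f) l := by
    intro l
    show (∑ f ∈ J, cc f • indB (adS f)) l = _
    rw [BoundedContinuousFunction.coe_sum, Finset.sum_apply]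
    rfl
  have hRx : (m : ℝ) / ((k : ℝ) + 1) ≤ ‖R n x‖ := by
    have h2 : R n x = ((∑ f ∈ J, ‖R n (indB (adS f))‖ : ℝ) : ℂ) := by
      show R n (∑ f ∈ J, cc f • indB (adS f)) = _
      rw [map_sum, Complex.ofReal_sum]
      refine Finset.sum_congr rfl fun f hf => ?_
      rw [map_smul, smul_eq_mul]
      show (starRingEnd ℂ) (R n (indB (adS f))) / ‖R n (indB (adS f))‖ * _ = _
      rw [div_mul_eq_mul_div, Complex.conj_mul']
      have h3 : ((‖R n (indB (adS f))‖ : ℝ) : ℂ) ≠ 0 := by
        have h4 := hJ1 f hf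
        have h5 : (0 : ℝ) < 1 / ((k : ℝ) + 1) := by positivity
        have h6 : ‖R n (indB (adS f))‖ ≠ 0 := (h5.trans h4).ne'
        exact_mod_cast h6
      field_simp
    rw [h2, Complex.norm_real, Real.norm_of_nonneg (Finset.sum_nonneg fun f _ => norm_nonneg _)]
    calc (m : ℝ) / ((k : ℝ) + 1) = ∑ f ∈ J, 1 / ((k : ℝ) + 1) := by
          rw [Finset.sum_const, hJm, nsmul_eq_mul]
          ring
      _ ≤ ∑ f ∈ J, ‖R n (indB (adS f))‖ := Finset.sum_le_sum fun f hf => (hJ1 f hf).le
  -- the part beyond `N`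
  have hy1 : ∀ l, ‖(if N ≤ l then x l else 0)‖ ≤ 1 := by
    intro l
    split_ifs with hl
    · rw [hxn]
      by_cases h2 : ∃ f ∈ J, l ∈ adS f
      · obtain ⟨f, hf, hlf⟩ := h2
        rw [Finset.sum_eq_single f]
        · rw [indB_apply, if_pos hlf, mul_one]
          exact hcc f
        · intro g hg hgf
          rw [indB_apply, if_neg, mul_zero]
          intro hlg
          have h3 := hN g hg f hf hgf l ⟨hlg, hlf⟩
          omega
        · intro h3
          exact absurd hf h3
      · push Not at h2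
        rw [Finset.sum_eq_zero]
        · simp
        · intro f hf
          rw [indB_apply, if_neg (h2 f hf), mul_zero]
    · simp
  let y : Bd := mkB (fun l => if N ≤ l then x l else 0) 1 hy1
  have hxy : x = y + ∑ l ∈ Finset.range N, x l • unB l := by
    ext l
    show x l = (if N ≤ l then x l else 0) + (∑ l' ∈ Finset.range N, x l' • unB l') l
    have h2 : ∀ l', (x l' • unB l') l = if l = l' then x l' else 0 := by
      intro l'
      show x l' * (if l = l' then 1 else 0) = _
      split_ifs <;> simp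
    have h5 : (∑ l' ∈ Finset.range N, x l' • unB l') l =
        ∑ l' ∈ Finset.range N, (if l = l' then x l' else 0) := by
      rw [BoundedContinuousFunction.coe_sum, Finset.sum_apply]
      exact Finset.sum_congr rfl fun l' _ => h2 l'
    rw [h5, Finset.sum_ite_eq]
    by_cases hl : N ≤ l
    · rw [if_pos hl, if_neg (by rw [Finset.mem_range]; omega), add_zero]
    · rw [if_neg hl, if_pos (by rw [Finset.mem_range]; omega), zero_add]
  have hRy : R n x = R n y := by
    conv_lhs => rw [hxy]
    rw [map_add, map_sum]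
    have h2 : ∑ l ∈ Finset.range N, R n (x l • unB l) = 0 := by
      refine Finset.sum_eq_zero fun l _ => ?_
      rw [map_smul, hRe, smul_zero]
    rw [h2, add_zero]
  rw [hRy] at hRx
  have h3 := (hRb n y).trans (mul_le_mul_of_nonneg_left (norm_mkB_le _ 1 zero_le_one hy1)
    (by linarith))
  have h4 := hRx.trans h3
  rw [div_le_iff₀ (by positivity)] at h4
  linarith

end Pool.Agent.Helper20.FA
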