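import Mathlib

/-!
# Spaces coherent with their compact subsets
-/

open Topology Filter

namespace Pool.Agent.Helper20.FA

universe u

variable {X : Type u} [TopologicalSpace X] [T2Space X] [CompactlyCoherentSpace X]

theorem mem_nhds_of_coherent {x0 : X} {C1 C2 : Set X} (hC1 : IsCompact C1) (hC2 : IsCompact C2)
    (h0 : x0 ∈ C1) (h12 : C1 ⊆ C2) (h1 : ∀ L, IsCompact L → x0 ∉ closure (L \ C1))
    (h2 : ∀ x ∈ C1, ∀ L, IsCompact L → x ∉ closure (L \ C2)) : C1 ∈ 𝓝 x0 := by
  classical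
  have : CompactSpace C2 := isCompact_iff_compactSpace.1 hC2
  let s : Set C2 := {y | (y : X) ∈ closure (C2 \ C1)}
  let t : Set C2 := {y | (y : X) = x0}
  have hs : IsClosed s := isClosed_closure.preimage continuous_subtype_val
  have ht : IsClosed t := isClosed_singleton.preimage continuous_subtype_val
  have hd : Disjoint s t := by
    rw [Set.disjoint_left]
    intro y hy hy'
    have h3 : (y : X) = x0 := hy'
    have h4 : (y : X) ∈ closure (C2 \ C1) := hy
    rw [h3] at h4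
    exact h1 C2 hC2 h4
  obtain ⟨g, hg0, hg1, -⟩ := exists_continuous_zero_one_of_isClosed hs ht hd
  let f : X → ℝ := fun x => if h : x ∈ C2 then g ⟨x, h⟩ else 0
  have hf2 : ∀ x (h : x ∈ C2), f x = g ⟨x, h⟩ := fun x h => dif_pos h
  have hf1 : ∀ x, x ∉ C1 → f x = 0 := by
    intro x hx
    by_cases h : x ∈ C2
    · rw [hf2 x h]
      exact hg0 (subset_closure ⟨h, hx⟩ : x ∈ closure (C2 \ C1))
    · exact dif_neg h
  have hfC2 : ContinuousOn f C2 := by
    rw [continuousOn_iff_continuous_domRestrict]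
    have h3 : C2.domRestrict f = g := by
      funext y
      exact hf2 y.1 y.2
    rw [h3]
    exact g.continuous
  have hfL : ∀ L, IsCompact L → ContinuousOn f L := by
    intro L hL y hy
    by_cases hy1 : y ∈ C1
    · have h3 := h2 y hy1 L hL
      have h4 : (closure (L \ C2))ᶜ ∈ 𝓝 y := isClosed_closure.isOpen_compl.mem_nhds h3
      have h5 : ContinuousWithinAt f (L ∩ C2) y :=
        (hfC2 y (h12 hy1)).mono Set.inter_subset_right
      refine h5.mono_of_mem_nhdsWithin ?_
      refine mem_nhdsWithin_iff_exists_mem_nhds_inter.2 ⟨_, h4, ?_⟩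
      rintro z ⟨hz1, hz2⟩
      refine ⟨hz2, ?_⟩
      by_contra hz3
      exact hz1 (subset_closure ⟨hz2, hz3⟩)
    · have h4 : C1ᶜ ∈ 𝓝 y := hC1.isClosed.isOpen_compl.mem_nhds hy1
      have h5 : ContinuousAt f y := by
        refine (continuousAt_const (y := (0 : ℝ))).congr ?_
        filter_upwards [h4] with z hz
        exact (hf1 z hz).symm
      exact h5.continuousWithinAt
  have hf : Continuous f := by
    rw [CompactlyCoherentSpace.isCoherentWith.continuous_iff]
    exact fun L hL => hfL L hL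
  have h6 : {x | 1 / 2 < f x} ∈ 𝓝 x0 := by
    refine (isOpen_lt continuous_const hf).mem_nhds ?_
    show 1 / 2 < f x0
    rw [hf2 x0 (h12 h0)]
    have h7 : g ⟨x0, h12 h0⟩ = 1 := hg1 (rfl : ((⟨x0, h12 h0⟩ : C2) : X) = x0)
    rw [h7]
    norm_num
  filter_upwards [h6] with x hx
  by_contra h7
  have h8 : (1 : ℝ) / 2 < f x := hx
  rw [hf1 x h7] at h8
  norm_num at h8

theorem exists_bad (hX : ¬ WeaklyLocallyCompactSpace X) : ∃ K0 : Set X, IsCompact K0 ∧
    ∀ K, IsCompact K → K0 ⊆ K → ∃ x ∈ K0, ∃ L, IsCompact L ∧ x ∈ closure (L \ K) := by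
  by_contra h
  push Not at h
  apply hX
  refine ⟨fun x0 => ?_⟩
  obtain ⟨C1, hC1, h01, h1⟩ := h {x0} isCompact_singleton
  obtain ⟨C2, hC2, h12, h2⟩ := h C1 hC1
  exact ⟨C1, hC1, mem_nhds_of_coherent hC1 hC2 (h01 rfl) h12 (fun L hL => h1 x0 rfl L hL)
    fun x hx L hL => h2 x hx L hL⟩

omit [CompactlyCoherentSpace X] in
theorem exists_seq (hFU : ∀ L : Set X, IsCompact L → FrechetUrysohnSpace L) {x : X}
    {L K : Set X} (hL : IsCompact L) (hx : x ∈ closure (L \ K)) :
    ∃ s : ℕ → X, (∀ n, s n ∈ L) ∧ (∀ n, s n ∉ K) ∧ Tendsto s atTop (𝓝 x) := by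
  have hxL : x ∈ L := hL.isClosed.closure_subset (closure_mono Set.diff_subset hx)
  have := hFU L hL
  have h1 : (⟨x, hxL⟩ : L) ∈ closure {y : L | (y : X) ∉ K} := by
    rw [closure_subtype]
    have h2 : (Subtype.val '' {y : L | (y : X) ∉ K}) = L \ K := by
      ext z
      constructor
      · rintro ⟨y, hy, rfl⟩
        exact ⟨y.2, hy⟩
      · rintro ⟨hz1, hz2⟩
        exact ⟨⟨z, hz1⟩, hz2, rfl⟩
    rw [h2]
    exact hx
  obtain ⟨s, hs, hsx⟩ := mem_closure_iff_seq_limit.1 h1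
  exact ⟨fun n => (s n : X), fun n => (s n).2, hs,
    (continuous_subtype_val.tendsto _).comp hsx⟩

end Pool.Agent.Helper20.FA
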